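import Pool.Agent.Work.MP_f1a024_nt.AH.Stmts

/-!
# Slow multiplicative growth
-/

namespace Pool.Agent.Work.MP_f1a024_nt.AH

open Finset

namespace ID7

/-- products of `j` elements -/
def T (N : ℕ) : ℕ → Finset ℕ
  | 0 => {1}
  | j + 1 => mulSet (T N j) N

theorem one_mem {N : ℕ} (hN : 2 ≤ N) (j : ℕ) : 1 ∈ T N j := by
  induction j with
  | zero => exact mem_singleton_self 1
  | succ j ih =>
    refine mem_image.mpr ⟨(1, 1), mem_product.mpr ⟨ih, mem_Ico.mpr ⟨le_rfl, by omega⟩⟩, rfl⟩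

theorem pos {N : ℕ} (j : ℕ) : ∀ l ∈ T N j, 0 < l := by
  induction j with
  | zero => intro l hl; rw [T, mem_singleton] at hl; omega
  | succ j ih =>
    intro l hl
    obtain ⟨p, hp, rfl⟩ := mem_image.mp hl
    obtain ⟨h1, h2⟩ := mem_product.mp hp
    have h3 := (mem_Ico.mp h2).1
    exact Nat.mul_pos (ih _ h1) (by omega)

theorem subset {N : ℕ} (j : ℕ) : T N j ⊆
    (Fintype.piFinset fun _ : Fin N => range (j + 1)).image
      fun μ => ∏ k : Fin N, ((k : ℕ) + 1) ^ μ k := by
  induction j with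
  | zero =>
    intro l hl
    rw [T, mem_singleton] at hl
    refine mem_image.mpr ⟨fun _ => 0, Fintype.mem_piFinset.mpr fun _ => by simp, ?_⟩
    simp [hl]
  | succ j ih =>
    intro l hl
    obtain ⟨p, hp, rfl⟩ := mem_image.mp hl
    obtain ⟨h1, h2⟩ := mem_product.mp hp
    obtain ⟨h3, h4⟩ := mem_Ico.mp h2
    obtain ⟨μ, hμ, hμp⟩ := mem_image.mp (ih h1)
    refine mem_image.mpr ⟨fun k => μ k + if k = ⟨p.2 - 1, by omega⟩ then 1 else 0,
      Fintype.mem_piFinset.mpr fun k => ?_, ?_⟩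
    · have := mem_range.mp (Fintype.mem_piFinset.mp hμ k)
      rw [mem_range]
      split_ifs <;> omega
    · simp only [pow_add, prod_mul_distrib, hμp]
      congr 1
      rw [Finset.prod_eq_single (⟨p.2 - 1, by omega⟩ : Fin N)]
      · rw [if_pos rfl, pow_one]
        show p.2 - 1 + 1 = p.2
        omega
      · intro k _ hk
        rw [if_neg hk, pow_zero]
      · intro h; exact absurd (mem_univ _) h

theorem card_le {N : ℕ} (j : ℕ) : (T N j).card ≤ (j + 1) ^ N := by
  refine (card_le_card (subset j)).trans (card_image_le.trans ?_)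
  rw [Fintype.card_piFinset]
  simp

end ID7

open ID7 in
theorem prfD7 : D7 := by
  intro N hN
  by_contra hcon
  push Not at hcon
  have h1 : ∀ j, 2 * (T N j).card < (T N (j + 1)).card := fun j =>
    hcon (T N j) (one_mem hN j) (pos j)
  have h2 : ∀ j, 2 ^ j ≤ (T N j).card := by
    intro j
    induction j with
    | zero => exact Nat.le_of_eq (by simp [T])
    | succ j ih => rw [pow_succ]; have := h1 j; omega
  have h3 := (tendsto_pow_const_div_const_pow_of_one_lt N (one_lt_two (α := ℝ))).eventually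
    (gt_mem_nhds (show (0 : ℝ) < 1 / 2 by norm_num))
  obtain ⟨n, hn⟩ := (h3.and (Filter.eventually_ge_atTop 1)).exists
  obtain ⟨hn1, hn2⟩ := hn
  obtain ⟨j, rfl⟩ := Nat.exists_eq_add_of_le' hn2
  have h4 : (2 : ℝ) ^ j ≤ ((j + 1 : ℕ) : ℝ) ^ N := by
    exact_mod_cast (h2 j).trans (card_le j)
  rw [div_lt_iff₀ (by positivity), pow_succ] at hn1
  have h5 : (0 : ℝ) < 2 ^ j := by positivity
  linarith

end Pool.Agent.Work.MP_f1a024_nt.AH
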