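import Pool.Agent.Work.Tools.Subspace.All
import Pool.Agent.Work.MP_f1a024_nt.Bd.B02
import Pool.Agent.Work.MP_f1a024_nt.AH.ItemD7

/-!
# MP_f1a024: assembly
-/

namespace Pool.Agent.Work.MP_f1a024_nt.AH

theorem d4 : D4 := prfD4 prfD2

theorem d8 : D8 := prfD8 Pool.Agent.Work.Tools.Subspace.subspaceN1 d4 prfD7

theorem d9 : D9 := prfD9 prfD1 prfD2 (prfD3 d4) d4 (prfD6 prfD1 prfD5) d8

theorem d12 : D12 := prfD12 prfD1 prfD2 d9 (prfD10a prfD1 prfD2) prfD10b (prfD11 prfD5)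

theorem d15 : D15 :=
  prfD15 prfD1 prfD2 d9 (prfD10a prfD1 prfD2) prfD10b (prfD13 prfD5) prfD14

theorem bounded : ∃ (C : ℝ) (M : ℕ), 0 ≤ C ∧ ∀ m ≥ M, ‖tt m‖ ≤ C := by
  obtain ⟨M₁, h1⟩ := (prfD10a prfD1 prfD2).2
  obtain ⟨C, M₂, hC, h2⟩ := d4 tau (prfD10a prfD1 prfD2).1 1 one_pos
  refine ⟨C, max M₁ M₂, hC, fun m hm => ?_⟩
  have h3 := h2 m ((le_max_right _ _).trans hm)
  rw [tt, ← h1 m ((le_max_left _ _).trans hm), Complex.norm_real, Real.norm_eq_abs]
  simpa using h3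

theorem rational (B : ℝ) : ∃ θ : ℝ, 0 < θ ∧ θ < 1 ∧ ∃ M : ℕ, ∀ m ≥ M, ∀ a b : ℤ, 0 < b →
    (b : ℝ) ≤ B ^ m → θ ^ m < ‖tt m - (a : ℂ) / b‖ := by
  obtain ⟨C, M₁, hC, h1⟩ := bounded
  set B₁ : ℝ := max |B| 1 with hB₁
  have hB1 : 1 ≤ B₁ := le_max_right _ _
  obtain ⟨θ₂, hθ₂, hθ₂1, M₂, h2⟩ := d12 1 ((1 + C) * B₁)
  refine ⟨θ₂ / (2 * B₁), by positivity, ?_, max 1 (max M₁ M₂), fun m hm a b hb hbB => ?_⟩
  · rw [div_lt_one (by positivity)]
    linarith
  have hm1 : 1 ≤ m := (le_max_left _ _).trans hm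
  have hmM₁ : M₁ ≤ m := ((le_max_left _ _).trans (le_max_right _ _)).trans hm
  have hmM₂ : M₂ ≤ m := ((le_max_right _ _).trans (le_max_right _ _)).trans hm
  have hb' : (0 : ℝ) < b := by exact_mod_cast hb
  have hbB₁ : (b : ℝ) ≤ B₁ ^ m := by
    refine hbB.trans ((le_abs_self _).trans ?_)
    rw [abs_pow]
    exact pow_le_pow_left₀ (abs_nonneg _) (le_max_left _ _) m
  have hθlt : (θ₂ / (2 * B₁)) ^ m < (θ₂ / B₁) ^ m := by
    refine pow_lt_pow_left₀ ?_ (by positivity) (by omega)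
    exact div_lt_div_of_pos_left hθ₂ (by positivity) (by linarith)
  have hθle : (θ₂ / B₁) ^ m ≤ 1 :=
    pow_le_one₀ (by positivity) ((div_le_one (by positivity)).mpr (hθ₂1.le.trans hB1))
  have hbC : ‖(b : ℂ)‖ = b := by
    rw [Complex.norm_intCast, abs_of_pos hb']
  have hb0 : (b : ℂ) ≠ 0 := by exact_mod_cast hb.ne'
  have hsplit : ‖(b : ℂ) * tt m - a‖ = b * ‖tt m - (a : ℂ) / b‖ := by
    rw [← hbC, ← norm_mul]
    congr 1
    field_simp
  have hco0 : (Polynomial.C b * Polynomial.X - Polynomial.C a : Polynomial ℤ).coeff 0 = -a := by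
    rw [Polynomial.coeff_sub, Polynomial.coeff_C_mul, Polynomial.coeff_X, Polynomial.coeff_C]
    simp
  have hco1 : (Polynomial.C b * Polynomial.X - Polynomial.C a : Polynomial ℤ).coeff (0 + 1) = b := by
    rw [Polynomial.coeff_sub, Polynomial.coeff_C_mul, Polynomial.coeff_X, Polynomial.coeff_C]
    simp
  by_cases ha : |(a : ℝ)| ≤ ((1 + C) * B₁) ^ m
  · have hP : (Polynomial.C b * Polynomial.X - Polynomial.C a : Polynomial ℤ) ≠ 0 := by
      intro h0
      rw [h0, Polynomial.coeff_zero] at hco1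
      omega
    have h3 := h2 m hmM₂ (Polynomial.C b * Polynomial.X - Polynomial.C a) hP ?_ ?_
    · have h4 : ((Polynomial.C b * Polynomial.X - Polynomial.C a : Polynomial ℤ).map
          (Int.castRingHom ℂ)).eval (riemannZeta (2 * m) / riemannZeta m ^ 2) =
          (b : ℂ) * tt m - a := by
        simp [tt]
      rw [h4, hsplit] at h3
      refine lt_of_lt_of_le hθlt ?_
      rw [div_pow, div_le_iff₀ (by positivity)]
      calc θ₂ ^ m ≤ b * ‖tt m - (a : ℂ) / b‖ := h3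
        _ ≤ B₁ ^ m * ‖tt m - (a : ℂ) / b‖ := mul_le_mul_of_nonneg_right hbB₁ (norm_nonneg _)
        _ = ‖tt m - (a : ℂ) / b‖ * B₁ ^ m := mul_comm _ _
    · refine (Polynomial.natDegree_sub_le _ _).trans (max_le ?_ ?_)
      · exact (Polynomial.natDegree_C_mul_le _ _).trans Polynomial.natDegree_X_le
      · simp
    · intro i
      have hB1m : (0 : ℝ) ≤ ((1 + C) * B₁) ^ m := by positivity
      rcases i with _ | _ | i
      · rw [hco0, Int.cast_neg, abs_neg]; exact ha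
      · rw [hco1, abs_of_pos hb']
        refine hbB₁.trans (pow_le_pow_left₀ (by positivity) ?_ m)
        nlinarith
      · have h5 : (Polynomial.C b * Polynomial.X - Polynomial.C a : Polynomial ℤ).coeff
            (i + 1 + 1) = 0 := by
          rw [Polynomial.coeff_sub, Polynomial.coeff_C_mul, Polynomial.coeff_X,
            Polynomial.coeff_C]
          simp
        rw [h5]
        simpa using hB1m
  · push Not at ha
    have h6 : 1 < ‖tt m - (a : ℂ) / b‖ := by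
      have h7 : ‖(a : ℂ) / b‖ ≤ ‖tt m - (a : ℂ) / b‖ + ‖tt m‖ := by
        have := norm_sub_le (tt m) (tt m - (a : ℂ) / b)
        rw [sub_sub_cancel] at this
        linarith
      have h8 : ‖(a : ℂ) / b‖ = |(a : ℝ)| / b := by
        rw [norm_div, hbC, Complex.norm_intCast]
      have h9 : (1 + C) < |(a : ℝ)| / b := by
        rw [lt_div_iff₀ hb']
        refine lt_of_le_of_lt ?_ ha
        rw [mul_pow]
        refine mul_le_mul ?_ hbB₁ hb'.le (by positivity)
        exact le_self_pow₀ (by linarith) (by omega)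
      have h10 := h1 m hmM₁
      rw [h8] at h7
      linarith
    exact lt_of_lt_of_le hθlt (hθle.trans h6.le)

theorem finite_rational (B : ℝ) :
    {m : ℕ | ∃ a b : ℤ, 0 < b ∧ (b : ℝ) ≤ B ^ m ∧ tt m = (a : ℂ) / b}.Finite := by
  obtain ⟨θ, hθ, -, M, h⟩ := rational B
  refine (Set.finite_Iio M).subset fun m hm => ?_
  obtain ⟨a, b, hb, hbB, hab⟩ := hm
  by_contra hcon
  have h1 := h m (not_lt.mp hcon) a b hb hbB
  rw [hab, sub_self, norm_zero] at h1
  exact absurd h1 (not_lt.mpr (by positivity))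

end Pool.Agent.Work.MP_f1a024_nt.AH
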