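import Mathlib
import Pool.Agent.Work.Tools.Subspace.Stmts3

/-!
# Values of Dirichlet series at integers and the Subspace theorem: statements
-/

namespace Pool.Agent.Work.MP_f1a024_nt.AH

open Finset

/-- polynomial growth of the coefficients -/
def PG (f : ArithmeticFunction ℚ) : Prop :=
  ∃ C A : ℕ, ∀ n, |((f n : ℚ) : ℝ)| ≤ C * (n : ℝ) ^ A

/-- Dirichlet polynomials -/
def IsP (f : ArithmeticFunction ℚ) : Prop := {n | f n ≠ 0}.Finite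

/-- the value of the Dirichlet series at the integer `m` -/
noncomputable def val (f : ArithmeticFunction ℚ) (m : ℕ) : ℝ :=
  ∑' n : ℕ, ((f n : ℚ) : ℝ) / (n : ℝ) ^ m

/-- linear independence over the ring of Dirichlet polynomials -/
def Ind {ι : Type} [Fintype ι] (f : ι → ArithmeticFunction ℚ) : Prop :=
  ∀ g : ι → ArithmeticFunction ℚ, (∀ i, IsP (g i)) → ∑ i, g i * f i = 0 → ∀ i, g i = 0

/-- D1: closure properties -/
def D1 : Prop :=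
  (∀ f g, PG f → PG g → PG (f * g)) ∧ (∀ f g, PG f → PG g → PG (f - g)) ∧ (∀ f, IsP f → PG f) ∧
    (∀ f g, IsP f → IsP g → IsP (f * g)) ∧ (∀ f g, IsP f → IsP g → IsP (f - g)) ∧ IsP 1

/-- D2: convergence, linearity and products -/
def D2 : Prop :=
  (∀ f, PG f → ∃ M : ℕ, ∀ m ≥ M, Summable fun n : ℕ => ((f n : ℚ) : ℝ) / (n : ℝ) ^ m) ∧
    (∀ f g, PG f → PG g → ∃ M : ℕ, ∀ m ≥ M, val (f - g) m = val f m - val g m) ∧
    ∀ f g, PG f → PG g → ∃ M : ℕ, ∀ m ≥ M, val (f * g) m = val f m * val g m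

/-- D3: nonvanishing -/
def D3 : Prop :=
  ∀ f, PG f → f ≠ 0 → ∃ (θ : ℝ) (M : ℕ), 0 < θ ∧ ∀ m ≥ M, θ ^ m ≤ |val f m|

/-- D4: tails -/
def D4 : Prop :=
  ∀ f, PG f → ∀ N : ℕ, 0 < N → ∃ (C : ℝ) (M : ℕ), 0 ≤ C ∧ ∀ m ≥ M,
    |val f m - ∑ k ∈ Finset.range N, ((f k : ℚ) : ℝ) / (k : ℝ) ^ m| ≤ C * (1 / (N : ℝ)) ^ m

/-- D5: no zero divisors -/
def D5 : Prop := ∀ f g : ArithmeticFunction ℚ, f * g = 0 → f = 0 ∨ g = 0

/-- D6: elimination -/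
def D6 : Prop :=
  ∀ (ι : Type) [Fintype ι] [DecidableEq ι] (f G : ι → ArithmeticFunction ℚ) (i₁ : ι), Ind f →
    (∀ i, IsP (G i)) → G i₁ ≠ 0 → Ind fun i : {i // i ≠ i₁} => G i₁ * f i - G i * f i₁

/-- all products of elements of `T` and of positive integers below `N` -/
def mulSet (T : Finset ℕ) (N : ℕ) : Finset ℕ := (T ×ˢ Finset.Ico 1 N).image fun p => p.1 * p.2

/-- D7: slow multiplicative growth -/
def D7 : Prop :=
  ∀ N : ℕ, 2 ≤ N → ∃ T : Finset ℕ, 1 ∈ T ∧ (∀ l ∈ T, 0 < l) ∧ (mulSet T N).card ≤ 2 * T.card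

/-- D8: the Subspace theorem gives finitely many relations -/
def D8 : Prop :=
  ∀ (ι : Type) [Fintype ι] [DecidableEq ι] (f : ι → ArithmeticFunction ℚ) (i₀ : ι),
    (∀ i, PG (f i)) → f i₀ ≠ 0 → ∀ B : ℝ, 1 ≤ B →
    ∃ (θ : ℝ) (M : ℕ) (𝒢 : Set (ι → ArithmeticFunction ℚ)), 0 < θ ∧ 𝒢.Finite ∧
      (∀ G ∈ 𝒢, (∀ i, IsP (G i)) ∧ ∃ i, G i ≠ 0) ∧
      ∀ m ≥ M, ∀ a : ι → ℤ, a ≠ 0 → (∀ i, |(a i : ℝ)| ≤ B ^ m) →
        |∑ i, (a i : ℝ) * val (f i) m| < θ ^ m → ∃ G ∈ 𝒢, ∑ i, (a i : ℝ) * val (G i) m = 0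

/-- D9: values of Dirichlet series which are linearly independent over the ring of Dirichlet
polynomials -/
def D9 : Prop :=
  ∀ (ι : Type) [Fintype ι] [DecidableEq ι] (f : ι → ArithmeticFunction ℚ), (∀ i, PG (f i)) →
    Ind f → ∀ B : ℝ, 1 ≤ B → ∃ (θ : ℝ) (M : ℕ), 0 < θ ∧ ∀ m ≥ M, ∀ a : ι → ℤ, a ≠ 0 →
      (∀ i, |(a i : ℝ)| ≤ B ^ m) → θ ^ m ≤ |∑ i, (a i : ℝ) * val (f i) m|

/-- the characteristic function of the squares -/
def sq : ArithmeticFunction ℚ := ⟨fun n => if n = 0 then 0 else if IsSquare n then 1 else 0, by simp⟩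

/-- coefficients of `ζ(2s)/ζ(s)^2` -/
noncomputable def tau : ArithmeticFunction ℚ :=
  sq * (ArithmeticFunction.moebius : ArithmeticFunction ℚ) *
    (ArithmeticFunction.moebius : ArithmeticFunction ℚ)

/-- D10a: the Dirichlet series of `tau` -/
def D10a : Prop :=
  PG tau ∧ ∃ M : ℕ, ∀ m ≥ M, (val tau m : ℂ) = riemannZeta (2 * m) / riemannZeta m ^ 2

/-- D10b: `tau` is multiplicative -/
def D10b : Prop := tau.IsMultiplicative ∧ ∀ p : ℕ, p.Prime → tau p = -2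

/-- D11: powers of a multiplicative function are independent over Dirichlet polynomials -/
def D11 : Prop :=
  ∀ (f : ArithmeticFunction ℚ) (c : ℚ), f.IsMultiplicative → c ≠ 0 →
    (∀ p : ℕ, p.Prime → f p = c) → ∀ d : ℕ, Ind fun i : Fin (d + 1) => f ^ (i : ℕ)

/-- D12: the final result -/
def D12 : Prop :=
  ∀ (d : ℕ) (B : ℝ), ∃ θ : ℝ, 0 < θ ∧ θ < 1 ∧ ∃ M : ℕ, ∀ m ≥ M, ∀ P : Polynomial ℤ, P ≠ 0 →
    P.natDegree ≤ d → (∀ i, |(P.coeff i : ℝ)| ≤ B ^ m) →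
    θ ^ m ≤ ‖(P.map (Int.castRingHom ℂ)).eval (riemannZeta (2 * m) / riemannZeta m ^ 2)‖

end Pool.Agent.Work.MP_f1a024_nt.AH
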